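import Pool.Agent.Q4.ZO.Stm

/-! Project ZO of helper4, job DG: the group of the sign changes and its real representations. -/

set_option autoImplicit false
set_option linter.unusedSimpArgs false
set_option linter.unusedVariables false
set_option linter.unusedSectionVars false

namespace Q210.ZOD

open Matrix Q4.ZO

section rep

variable {A : Type} [Group A] [Finite A] {V : Type} [AddCommGroup V] [Module ℝ V]
  [FiniteDimensional ℝ V] (ρ : A →* (V →ₗ[ℝ] V))

theorem comm_of_sq (hsq : ∀ a : A, a * a = 1) (a b : A) : a * b = b * a := by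
  have h1 : ∀ a : A, a⁻¹ = a := fun a => inv_eq_of_mul_eq_one_left (hsq a)
  have h2 := h1 (a * b)
  rw [_root_.mul_inv_rev, h1, h1] at h2
  exact h2.symm

theorem rho_rho (a b : A) (v : V) : ρ a (ρ b v) = ρ (a * b) v := by
  rw [map_mul]
  rfl

/-- the elements of `B` which act trivially on `W` -/
def tr (B : Subgroup A) (W : Submodule ℝ V) : Subgroup A where
  carrier := {b | b ∈ B ∧ ∀ w ∈ W, ρ b w = w}
  one_mem' := ⟨B.one_mem, fun w _ => by rw [map_one]; rfl⟩
  mul_mem' := by
    rintro a b ⟨ha, ha'⟩ ⟨hb, hb'⟩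
    refine ⟨B.mul_mem ha hb, fun w hw => ?_⟩
    rw [← rho_rho, hb' w hw, ha' w hw]
  inv_mem' := by
    rintro a ⟨ha, ha'⟩
    refine ⟨B.inv_mem ha, fun w hw => ?_⟩
    conv_lhs => rw [← ha' w hw, rho_rho, inv_mul_cancel, map_one]
    rfl

theorem rep (hsq : ∀ a : A, a * a = 1) : ∀ (n : ℕ) (W : Submodule ℝ V) (B : Subgroup A),
    Module.finrank ℝ W ≤ n → (∀ b ∈ B, ∀ w ∈ W, ρ b w ∈ W) →
    ∃ B' : Subgroup A, B' ≤ B ∧ (∀ b ∈ B', ∀ w ∈ W, ρ b w = w) ∧
      Nat.card B ≤ Nat.card B' * 2 ^ Module.finrank ℝ W := by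
  intro n
  induction n with
  | zero =>
    intro W B hW hB
    have h1 : W = ⊥ := Submodule.finrank_eq_zero.1 (Nat.le_zero.1 hW)
    refine ⟨B, le_rfl, ?_, Nat.le_mul_of_pos_right _ (by positivity)⟩
    intro b _ w hw
    rw [h1, Submodule.mem_bot] at hw
    rw [hw, map_zero]
  | succ n ih =>
    intro W B hW hB
    by_cases hc : ∀ b ∈ B, (∀ w ∈ W, ρ b w = w) ∨ (∀ w ∈ W, ρ b w = -w)
    · by_cases hB' : ∀ b ∈ B, ∀ w ∈ W, ρ b w = w
      · exact ⟨B, le_rfl, hB', Nat.le_mul_of_pos_right _ (by positivity)⟩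
      · push Not at hB'
        obtain ⟨b0, hb0, w0, hw0, hne⟩ := hB'
        have hb1 : ∀ w ∈ W, ρ b0 w = -w := by
          rcases hc b0 hb0 with h | h
          · exact absurd (h w0 hw0) hne
          · exact h
        have hfr : 1 ≤ Module.finrank ℝ W := by
          rw [Nat.one_le_iff_ne_zero]
          intro h
          rw [Submodule.finrank_eq_zero] at h
          rw [h, Submodule.mem_bot] at hw0
          exact hne (by rw [hw0, map_zero])
        refine ⟨tr ρ B W, fun b hb => hb.1, fun b hb => hb.2, ?_⟩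
        have h2 : Nat.card B ≤ Nat.card (tr ρ B W × Bool) := by
          classical
          have key : ∀ b : B, b.1 ∉ tr ρ B W → b0 * b.1 ∈ tr ρ B W := by
            intro b hb
            refine ⟨B.mul_mem hb0 b.2, fun w hw => ?_⟩
            have h3 : ∀ w ∈ W, ρ b.1 w = -w := by
              rcases hc b.1 b.2 with h | h
              · exact absurd ⟨b.2, h⟩ hb
              · exact h
            rw [← rho_rho, h3 w hw, map_neg, hb1 w hw, neg_neg]
          refine Nat.card_le_card_of_injective (fun b : B =>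
            if h : b.1 ∈ tr ρ B W then ((⟨b.1, h⟩, true) : tr ρ B W × Bool)
            else (⟨b0 * b.1, key b h⟩, false)) ?_
          intro a b hab
          simp only at hab
          split_ifs at hab with h4 h5 h5
          · exact Subtype.ext (congrArg (fun z => z.1.1) hab)
          · exact absurd (congrArg (fun z => z.2) hab) (by simp)
          · exact absurd (congrArg (fun z => z.2) hab) (by simp)
          · exact Subtype.ext (mul_left_cancel (congrArg (fun z => z.1.1) hab))
        rw [Nat.card_prod, Nat.card_eq_fintype_card (α := Bool), Fintype.card_bool] at h2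
        calc Nat.card B ≤ Nat.card (tr ρ B W) * 2 := h2
          _ = Nat.card (tr ρ B W) * 2 ^ 1 := by rw [pow_one]
          _ ≤ _ := Nat.mul_le_mul_left _ (Nat.pow_le_pow_right (by norm_num) hfr)
    · push Not at hc
      obtain ⟨b0, hb0, ⟨w1, hw1, hn1⟩, ⟨w2, hw2, hn2⟩⟩ := hc
      obtain ⟨P, hP⟩ : ∃ P : Submodule ℝ V, ∀ w, w ∈ P ↔ w ∈ W ∧ ρ b0 w = w := by
        refine ⟨W ⊓ LinearMap.ker (ρ b0 - LinearMap.id), fun w => ?_⟩
        rw [Submodule.mem_inf, LinearMap.mem_ker, LinearMap.sub_apply, LinearMap.id_apply,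
          sub_eq_zero]
      obtain ⟨M, hM⟩ : ∃ M : Submodule ℝ V, ∀ w, w ∈ M ↔ w ∈ W ∧ ρ b0 w = -w := by
        refine ⟨W ⊓ LinearMap.ker (ρ b0 + LinearMap.id), fun w => ?_⟩
        rw [Submodule.mem_inf, LinearMap.mem_ker, LinearMap.add_apply, LinearMap.id_apply,
          add_eq_zero_iff_eq_neg]
      have hPW : P < W := by
        refine lt_of_le_of_ne (fun w hw => ((hP w).1 hw).1) fun h => hn1 ?_
        rw [← h] at hw1
        exact ((hP w1).1 hw1).2
      have hMW : M < W := by
        refine lt_of_le_of_ne (fun w hw => ((hM w).1 hw).1) fun h => hn2 ?_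
        rw [← h] at hw2
        exact ((hM w2).1 hw2).2
      have hsup : P ⊔ M = W := by
        apply le_antisymm (sup_le hPW.le hMW.le)
        intro w hw
        have e1 : ρ b0 (ρ b0 w) = w := by
          rw [rho_rho, hsq, map_one]
          rfl
        have e2 := hB b0 hb0 w hw
        have e3 : w = (1 / 2 : ℝ) • (w + ρ b0 w) + (1 / 2 : ℝ) • (w - ρ b0 w) := by
          module
        rw [e3]
        refine Submodule.add_mem_sup ((hP _).2 ⟨?_, ?_⟩) ((hM _).2 ⟨?_, ?_⟩)
        · exact W.smul_mem _ (W.add_mem hw e2)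
        · rw [map_smul, map_add, e1, add_comm]
        · exact W.smul_mem _ (W.sub_mem hw e2)
        · rw [map_smul, map_sub, e1]
          module
      have hinf : P ⊓ M = ⊥ := by
        rw [eq_bot_iff]
        intro w hw
        rw [Submodule.mem_inf, hP, hM] at hw
        rw [Submodule.mem_bot]
        have e1 : w = -w := hw.1.2.symm.trans hw.2.2
        have e2 : (2 : ℝ) • w = 0 := by
          rw [two_smul]
          nth_rewrite 2 [e1]
          exact add_neg_cancel w
        exact (smul_eq_zero.1 e2).resolve_left two_ne_zero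
      have hdim : Module.finrank ℝ P + Module.finrank ℝ M = Module.finrank ℝ W := by
        have h3 := Submodule.finrank_sup_add_finrank_inf_eq P M
        rw [hsup, hinf, finrank_bot, add_zero] at h3
        exact h3.symm
      have hcomm : ∀ b w, ρ b0 (ρ b w) = ρ b (ρ b0 w) := by
        intro b w
        rw [rho_rho, rho_rho, comm_of_sq hsq]
      obtain ⟨B1, hB1, hB1', hB1c⟩ := ih P B (by
          have := Submodule.finrank_lt_finrank_of_lt hPW
          omega) (by
          intro b hb w hw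
          rw [hP] at hw ⊢
          refine ⟨hB b hb w hw.1, ?_⟩
          rw [hcomm, hw.2])
      obtain ⟨B2, hB2, hB2', hB2c⟩ := ih M B1 (by
          have := Submodule.finrank_lt_finrank_of_lt hMW
          omega) (by
          intro b hb w hw
          rw [hM] at hw ⊢
          refine ⟨hB b (hB1 hb) w hw.1, ?_⟩
          rw [hcomm, hw.2, map_neg])
      refine ⟨B2, hB2.trans hB1, ?_, ?_⟩
      · intro b hb w hw
        rw [← hsup, Submodule.mem_sup] at hw
        obtain ⟨x, hx, y, hy, rfl⟩ := hw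
        rw [map_add, hB1' b (hB2 hb) x hx, hB2' b hb y hy]
      · calc Nat.card B ≤ Nat.card B1 * 2 ^ Module.finrank ℝ P := hB1c
          _ ≤ (Nat.card B2 * 2 ^ Module.finrank ℝ M) * 2 ^ Module.finrank ℝ P :=
            Nat.mul_le_mul_right _ hB2c
          _ = _ := by
            rw [← hdim, pow_add, mul_assoc, mul_comm (2 ^ Module.finrank ℝ M)]

end rep

section

variable {R : Type} [CommRing R] {p q : ℕ}

theorem gl_ext_basis {g h : GL (Ix p q) R} (h1 : ∀ i, g.1 *ᵥ ve R i = h.1 *ᵥ ve R i)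
    (h2 : ∀ i, g.1 *ᵥ vf R i = h.1 *ᵥ vf R i) (h3 : ∀ k, g.1 *ᵥ vg R k = h.1 *ᵥ vg R k) :
    g = h := by
  refine Units.ext (Matrix.ext_of_mulVec_single fun i => ?_)
  rcases i with i | i | k
  · exact h1 i
  · exact h2 i
  · exact h3 k

theorem units_mv (g : GL (Ix p q) R) (s : ℤˣ) (v : Ix p q → R) :
    g.1 *ᵥ (s • v) = s • (g.1 *ᵥ v) := by
  rcases Int.units_eq_one_or s with rfl | rfl
  · rw [one_smul, one_smul]
  · rw [Units.neg_smul, Units.neg_smul, one_smul, one_smul, Matrix.mulVec_neg]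

theorem Dg_sq (x : Dg R p q) : x * x = 1 := by
  apply Subtype.ext
  show x.1 * x.1 = 1
  have key : ∀ v, (x.1 * x.1).1 *ᵥ v = x.1.1 *ᵥ (x.1.1 *ᵥ v) := by
    intro v
    rw [Matrix.mulVec_mulVec]
    rfl
  have key1 : ∀ v : Ix p q → R, (1 : GL (Ix p q) R).1 *ᵥ v = v := Matrix.one_mulVec
  obtain ⟨hx, hx'⟩ := x.2
  refine gl_ext_basis (fun i => ?_) (fun i => ?_) (fun k => ?_)
  · obtain ⟨s, ⟨h1, h2⟩ | ⟨h1, h2⟩⟩ := hx i
    · rw [key, h1, units_mv, h1, smul_smul, Int.units_mul_self, one_smul, key1]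
    · rw [key, h1, units_mv, h2, smul_smul, Int.units_mul_self, one_smul, key1]
  · obtain ⟨s, ⟨h1, h2⟩ | ⟨h1, h2⟩⟩ := hx i
    · rw [key, h2, units_mv, h2, smul_smul, Int.units_mul_self, one_smul, key1]
    · rw [key, h2, units_mv, h1, smul_smul, Int.units_mul_self, one_smul, key1]
  · obtain ⟨s, h1⟩ := hx' k
    rw [key, h1, units_mv, h1, smul_smul, Int.units_mul_self, one_smul, key1]

/-- the parameters of a sign change -/
abbrev Tp (p q : ℕ) : Type := (Fin p → ℤˣ × Bool) × (Fin q → ℤˣ)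

/-- the permutation part -/
def sg (a : Tp p q) : Ix p q → Ix p q
  | Sum.inl i => if (a.1 i).2 then Sum.inr (Sum.inl i) else Sum.inl i
  | Sum.inr (Sum.inl i) => if (a.1 i).2 then Sum.inl i else Sum.inr (Sum.inl i)
  | Sum.inr (Sum.inr k) => Sum.inr (Sum.inr k)

/-- the signs -/
def ep (a : Tp p q) : Ix p q → ℤˣ
  | Sum.inl i => (a.1 i).1
  | Sum.inr (Sum.inl i) => (a.1 i).1
  | Sum.inr (Sum.inr k) => a.2 k

theorem sg_sg (a : Tp p q) (j : Ix p q) : sg a (sg a j) = j := by
  rcases j with i | i | k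
  · simp only [sg]
    split_ifs with h
    · simp [sg, h]
    · simp [sg, h]
  · simp only [sg]
    split_ifs with h
    · simp [sg, h]
    · simp [sg, h]
  · rfl

theorem ep_sg (a : Tp p q) (j : Ix p q) : ep a (sg a j) = ep a j := by
  rcases j with i | i | k
  · simp only [sg]
    split_ifs with h
    · rfl
    · rfl
  · simp only [sg]
    split_ifs with h
    · rfl
    · rfl
  · rfl

variable (R)

/-- the sign change as a linear map -/
def Ls (a : Tp p q) : (Ix p q → R) →ₗ[R] (Ix p q → R) where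
  toFun v j := ep a j • v (sg a j)
  map_add' v w := by
    funext j
    simp only [Pi.add_apply, smul_add]
  map_smul' c v := by
    funext j
    simp only [Pi.smul_apply, RingHom.id_apply]
    rw [smul_comm]

theorem Ls_apply (a : Tp p q) (v : Ix p q → R) (j : Ix p q) :
    Ls R a v j = ep a j • v (sg a j) := rfl

theorem Ls_Ls (a : Tp p q) (v : Ix p q → R) : Ls R a (Ls R a v) = v := by
  funext j
  rw [Ls_apply, Ls_apply, sg_sg, ep_sg, smul_smul, Int.units_mul_self, one_smul]

theorem Ls_mat (a : Tp p q) :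
    LinearMap.toMatrix' (Ls R a) * LinearMap.toMatrix' (Ls R a) = 1 := by
  rw [← LinearMap.toMatrix'_comp, ← LinearMap.toMatrix'_id]
  congr 1
  refine LinearMap.ext fun v => ?_
  rw [LinearMap.comp_apply, Ls_Ls]
  rfl

/-- the sign change as an invertible matrix -/
def Gs (a : Tp p q) : GL (Ix p q) R :=
  ⟨LinearMap.toMatrix' (Ls R a), LinearMap.toMatrix' (Ls R a), Ls_mat R a, Ls_mat R a⟩

theorem Gs_mv (a : Tp p q) (v : Ix p q → R) : (Gs R a).1 *ᵥ v = Ls R a v := by
  show LinearMap.toMatrix' (Ls R a) *ᵥ v = _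
  rw [LinearMap.toMatrix'_mulVec]

theorem Gs_ve (a : Tp p q) (i : Fin p) : (Gs R a).1 *ᵥ ve R i =
    (a.1 i).1 • (if (a.1 i).2 then vf R i else ve R i) := by
  rw [Gs_mv]
  funext j
  rw [Ls_apply]
  rcases j with j | j | k
  · by_cases h : j = i
    · subst h
      cases hb : (a.1 j).2 <;> simp [sg, ep, ve, vf, hb, Pi.single_apply]
    · cases hb : (a.1 j).2 <;> cases hc : (a.1 i).2 <;>
        simp [sg, ep, ve, vf, hb, hc, h, Pi.single_apply]
  · by_cases h : j = i
    · subst h
      cases hb : (a.1 j).2 <;> simp [sg, ep, ve, vf, hb, Pi.single_apply]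
    · cases hb : (a.1 j).2 <;> cases hc : (a.1 i).2 <;>
        simp [sg, ep, ve, vf, hb, hc, h, Pi.single_apply]
  · cases hc : (a.1 i).2 <;> simp [sg, ep, ve, vf, hc, Pi.single_apply]

theorem Gs_vf (a : Tp p q) (i : Fin p) : (Gs R a).1 *ᵥ vf R i =
    (a.1 i).1 • (if (a.1 i).2 then ve R i else vf R i) := by
  rw [Gs_mv]
  funext j
  rw [Ls_apply]
  rcases j with j | j | k
  · by_cases h : j = i
    · subst h
      cases hb : (a.1 j).2 <;> simp [sg, ep, ve, vf, hb, Pi.single_apply]
    · cases hb : (a.1 j).2 <;> cases hc : (a.1 i).2 <;>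
        simp [sg, ep, ve, vf, hb, hc, h, Pi.single_apply]
  · by_cases h : j = i
    · subst h
      cases hb : (a.1 j).2 <;> simp [sg, ep, ve, vf, hb, Pi.single_apply]
    · cases hb : (a.1 j).2 <;> cases hc : (a.1 i).2 <;>
        simp [sg, ep, ve, vf, hb, hc, h, Pi.single_apply]
  · cases hc : (a.1 i).2 <;> simp [sg, ep, ve, vf, hc, Pi.single_apply]

theorem Gs_vg (a : Tp p q) (k : Fin q) : (Gs R a).1 *ᵥ vg R k = a.2 k • vg R k := by
  rw [Gs_mv]
  funext j
  rw [Ls_apply]
  rcases j with j | j | l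
  · cases hb : (a.1 j).2 <;> simp [sg, ep, vg, hb, Pi.single_apply]
  · cases hb : (a.1 j).2 <;> simp [sg, ep, vg, hb, Pi.single_apply]
  · by_cases h : l = k
    · subst h
      simp [sg, ep, vg, Pi.single_apply]
    · simp [sg, ep, vg, h, Pi.single_apply]

theorem Gs_mem (a : Tp p q) : Gs R a ∈ Dg R p q := by
  refine ⟨fun i => ⟨(a.1 i).1, ?_⟩, fun k => ⟨a.2 k, Gs_vg R a k⟩⟩
  rw [Gs_ve, Gs_vf]
  cases hb : (a.1 i).2
  · left
    simp
  · right
    simp

theorem Gs_surj (x : Dg R p q) : ∃ a : Tp p q, x.1 = Gs R a := by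
  obtain ⟨hx, hx'⟩ := x.2
  have h1 : ∀ i : Fin p, ∃ a : ℤˣ × Bool, x.1.1 *ᵥ ve R i = a.1 • (if a.2 then vf R i else ve R i) ∧
      x.1.1 *ᵥ vf R i = a.1 • (if a.2 then ve R i else vf R i) := by
    intro i
    obtain ⟨s, ⟨h1, h2⟩ | ⟨h1, h2⟩⟩ := hx i
    · exact ⟨(s, false), by simpa using ⟨h1, h2⟩⟩
    · exact ⟨(s, true), by simpa using ⟨h1, h2⟩⟩
  choose f hf using h1
  choose g hg using hx'
  refine ⟨(f, g), gl_ext_basis (fun i => ?_) (fun i => ?_) (fun k => ?_)⟩
  · rw [Gs_ve]
    exact (hf i).1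
  · rw [Gs_vf]
    exact (hf i).2
  · rw [Gs_vg]
    exact hg k

theorem Gs_inj [Nontrivial R] (h2 : (2 : R) ≠ 0) (a b : Tp p q) (h : Gs R a = Gs R b) : a = b := by
  have hun : ∀ s t : ℤˣ, s • (1 : R) = t • (1 : R) → s = t := by
    intro s t hst
    have h11 : (1 : R) ≠ -1 := by
      intro h3
      apply h2
      have h4 : (1 : R) + 1 = 0 := by
        nth_rewrite 2 [h3]
        exact add_neg_cancel 1
      rw [← h4]
      norm_num
    rcases Int.units_eq_one_or s with rfl | rfl <;> rcases Int.units_eq_one_or t with rfl | rfl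
    · rfl
    · rw [Units.neg_smul, one_smul] at hst
      exact absurd hst h11
    · rw [Units.neg_smul, one_smul] at hst
      exact absurd hst.symm h11
    · rfl
  have hun0 : ∀ s : ℤˣ, s • (1 : R) ≠ 0 := by
    intro s hs
    rcases Int.units_eq_one_or s with rfl | rfl
    · rw [one_smul] at hs
      exact one_ne_zero hs
    · rw [Units.neg_smul, one_smul, neg_eq_zero] at hs
      exact one_ne_zero hs
  have hpair : ∀ (i : Fin p) (x y : ℤˣ × Bool), x.1 • (if x.2 then (vf R i : Ix p q → R)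
      else ve R i) = y.1 • (if y.2 then vf R i else ve R i) → x = y := by
    rintro i ⟨s, c⟩ ⟨s', c'⟩ h3
    have h4 := congrFun h3 (Sum.inl i)
    have h5 := congrFun h3 (Sum.inr (Sum.inl i))
    cases c <;> cases c' <;> simp [ve, vf, Pi.single_apply, -smul_eq_zero] at h4 h5 ⊢
    · exact hun _ _ h4
    · exact hun0 _ h4
    · exact hun0 _ h4.symm
    · exact hun _ _ h5
  refine Prod.ext (funext fun i => ?_) (funext fun k => ?_)
  · have h3 := Gs_ve R a i
    rw [h, Gs_ve] at h3
    exact (hpair i _ _ h3).symm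
  · have h3 := Gs_vg R a k
    rw [h, Gs_vg] at h3
    have h4 := congrFun h3 (Sum.inr (Sum.inr k))
    simp only [vg, Pi.smul_apply, Pi.single_eq_same] at h4
    exact (hun _ _ h4).symm

theorem Dg_finite : Finite (Dg R p q) :=
  Finite.of_surjective (fun a : Tp p q => (⟨Gs R a, Gs_mem R a⟩ : Dg R p q)) fun x => by
    obtain ⟨a, ha⟩ := Gs_surj R x
    exact ⟨a, Subtype.ext ha.symm⟩

theorem Dg_card [Nontrivial R] (h2 : (2 : R) ≠ 0) : 2 ^ (2 * p + q) ≤ Nat.card (Dg R p q) := by
  have := Dg_finite R (p := p) (q := q)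
  have h1 : Nat.card (Tp p q) = 2 ^ (2 * p + q) := by
    rw [Nat.card_eq_fintype_card, Fintype.card_prod, Fintype.card_fun, Fintype.card_fun,
      Fintype.card_prod, Fintype.card_bool, Fintype.card_units_int, Fintype.card_fin,
      Fintype.card_fin, pow_add, pow_mul]
    norm_num
  rw [← h1]
  refine Nat.card_le_card_of_injective (fun a : Tp p q => (⟨Gs R a, Gs_mem R a⟩ : Dg R p q)) ?_
  intro a b hab
  exact Gs_inj R h2 a b (congrArg Subtype.val hab)

end

/-- **job DG** -/
theorem tDg : Q4.ZO.SDg := by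
  intro R _ _ h2 p q
  have := Dg_finite R (p := p) (q := q)
  refine ⟨Dg_finite R, ?_, ?_⟩
  · intro x
    exact ⟨1, by rw [pow_one, pow_two, Dg_sq]⟩
  · intro k S hS V _ _ _ ρ hV
    have hsq : ∀ a : S, a * a = 1 := fun a => Subtype.ext (Dg_sq a.1)
    obtain ⟨B, -, hB, hBc⟩ := rep ρ hsq (Module.finrank ℝ V) ⊤ ⊤ (by rw [finrank_top])
      (fun _ _ _ _ => Submodule.mem_top)
    rw [finrank_top, Subgroup.card_top] at hBc
    have h3 : Nat.card S * S.index = Nat.card (Dg R p q) := Subgroup.card_mul_index S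
    have h4 := Dg_card R (p := p) (q := q) h2
    have h5 : 4 ≤ Nat.card B := by
      by_contra hlt
      push Not at hlt
      have h6 : Nat.card (Dg R p q) ≤ (3 * 2 ^ Module.finrank ℝ V) * 2 ^ k := by
        rw [← h3]
        refine Nat.mul_le_mul (hBc.trans (Nat.mul_le_mul_right _ (by omega))) hS
      have h7 : 3 * 2 ^ Module.finrank ℝ V * 2 ^ k < 2 ^ (2 * p + q) := by
        calc 3 * 2 ^ Module.finrank ℝ V * 2 ^ k = 3 * 2 ^ (Module.finrank ℝ V + k) := by
              rw [pow_add, mul_assoc]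
          _ < 4 * 2 ^ (Module.finrank ℝ V + k) :=
            Nat.mul_lt_mul_of_pos_right (by norm_num) (by positivity)
          _ = 2 ^ (Module.finrank ℝ V + k + 2) := by
            rw [pow_add _ _ 2]
            ring
          _ ≤ 2 ^ (2 * p + q) := Nat.pow_le_pow_right (by norm_num) (by omega)
      omega
    by_contra hno
    push Not at hno
    have h8 : Nat.card B ≤ Nat.card Bool := by
      classical
      refine Nat.card_le_card_of_injective (fun b : B => decide (b.1.1.1 = 1)) ?_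
      intro a b hab
      have key : ∀ b : B, b.1.1.1 ≠ 1 → b.1.1.1 = -1 := by
        intro b hb
        refine hno b.1 ?_ hb
        exact LinearMap.ext fun v => hB b.1 b.2 v Submodule.mem_top
      simp only [decide_eq_decide] at hab
      apply Subtype.ext
      apply Subtype.ext
      apply Subtype.ext
      by_cases h9 : a.1.1.1 = 1
      · rw [h9, hab.1 h9]
      · rw [key a h9, key b fun h => h9 (hab.2 h)]
    rw [Nat.card_eq_fintype_card (α := Bool), Fintype.card_bool] at h8
    omega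

end Q210.ZOD
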