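import Pool.Agent.Q4.ZO.Stm

/-! Project ZO of helper4, job PERF: the elementary orthogonal group is perfect. -/

set_option autoImplicit false
set_option linter.unusedSimpArgs false
set_option linter.unusedVariables false
set_option linter.unusedSectionVars false

namespace Q210.ZO

open Matrix Q4.ZO
open scoped commutatorElement

section

variable {R : Type} [CommRing R] {p q : ℕ} (d : Fin q → R)

theorem Bf_add_left (v v' w : Ix p q → R) : Bf d (v + v') w = Bf d v w + Bf d v' w := by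
  simp only [Bf, Pi.add_apply]
  have h1 : ∀ i : Fin p, (v (Sum.inl i) + v' (Sum.inl i)) * w (Sum.inr (Sum.inl i)) +
      (v (Sum.inr (Sum.inl i)) + v' (Sum.inr (Sum.inl i))) * w (Sum.inl i) =
      (v (Sum.inl i) * w (Sum.inr (Sum.inl i)) + v (Sum.inr (Sum.inl i)) * w (Sum.inl i)) +
      (v' (Sum.inl i) * w (Sum.inr (Sum.inl i)) + v' (Sum.inr (Sum.inl i)) * w (Sum.inl i)) := by
    intro i; ring
  have h2 : ∀ k : Fin q, 2 * d k * (v (Sum.inr (Sum.inr k)) + v' (Sum.inr (Sum.inr k))) *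
      w (Sum.inr (Sum.inr k)) = 2 * d k * v (Sum.inr (Sum.inr k)) * w (Sum.inr (Sum.inr k)) +
      2 * d k * v' (Sum.inr (Sum.inr k)) * w (Sum.inr (Sum.inr k)) := by
    intro k; ring
  simp only [h1, h2, Finset.sum_add_distrib]
  ring

theorem Bf_comm (v w : Ix p q → R) : Bf d v w = Bf d w v := by
  simp only [Bf]
  congr 1
  · exact Finset.sum_congr rfl fun i _ => by ring
  · exact Finset.sum_congr rfl fun i _ => by ring

theorem Bf_smul_left (c : R) (v w : Ix p q → R) : Bf d (c • v) w = c * Bf d v w := by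
  simp only [Bf, Pi.smul_apply, smul_eq_mul, mul_add, Finset.mul_sum]
  congr 1
  · exact Finset.sum_congr rfl fun i _ => by ring
  · exact Finset.sum_congr rfl fun i _ => by ring

theorem Bf_add_right (v w w' : Ix p q → R) : Bf d v (w + w') = Bf d v w + Bf d v w' := by
  rw [Bf_comm, Bf_add_left, Bf_comm d w, Bf_comm d w']

theorem Bf_smul_right (c : R) (v w : Ix p q → R) : Bf d v (c • w) = c * Bf d v w := by
  rw [Bf_comm, Bf_smul_left, Bf_comm d w]

theorem Bf_neg_left (v w : Ix p q → R) : Bf d (-v) w = -Bf d v w := by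
  rw [← neg_one_smul R v, Bf_smul_left, neg_one_mul]

theorem Bf_neg_right (v w : Ix p q → R) : Bf d v (-w) = -Bf d v w := by
  rw [Bf_comm, Bf_neg_left, Bf_comm d w]

theorem Bf_sub_left (v v' w : Ix p q → R) : Bf d (v - v') w = Bf d v w - Bf d v' w := by
  rw [sub_eq_add_neg, Bf_add_left, Bf_neg_left, sub_eq_add_neg]

theorem Qf_add (v w : Ix p q → R) : Qf d (v + w) = Qf d v + Qf d w + Bf d v w := by
  simp only [Qf, Bf, Pi.add_apply]
  have h1 : ∀ i : Fin p, (v (Sum.inl i) + w (Sum.inl i)) * (v (Sum.inr (Sum.inl i)) +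
      w (Sum.inr (Sum.inl i))) = v (Sum.inl i) * v (Sum.inr (Sum.inl i)) +
      w (Sum.inl i) * w (Sum.inr (Sum.inl i)) + (v (Sum.inl i) * w (Sum.inr (Sum.inl i)) +
      v (Sum.inr (Sum.inl i)) * w (Sum.inl i)) := by
    intro i; ring
  have h2 : ∀ k : Fin q, d k * (v (Sum.inr (Sum.inr k)) + w (Sum.inr (Sum.inr k))) ^ 2 =
      d k * v (Sum.inr (Sum.inr k)) ^ 2 + d k * w (Sum.inr (Sum.inr k)) ^ 2 +
      2 * d k * v (Sum.inr (Sum.inr k)) * w (Sum.inr (Sum.inr k)) := by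
    intro k; ring
  simp only [h1, h2, Finset.sum_add_distrib]
  ring

theorem Qf_smul (c : R) (v : Ix p q → R) : Qf d (c • v) = c ^ 2 * Qf d v := by
  simp only [Qf, Pi.smul_apply, smul_eq_mul, mul_add, Finset.mul_sum]
  congr 1
  · exact Finset.sum_congr rfl fun i _ => by ring
  · exact Finset.sum_congr rfl fun i _ => by ring

theorem Bf_self (v : Ix p q → R) : Bf d v v = 2 * Qf d v := by
  simp only [Qf, Bf, mul_add, Finset.mul_sum]
  congr 1
  · exact Finset.sum_congr rfl fun i _ => by ring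
  · exact Finset.sum_congr rfl fun i _ => by ring

/-- the Eichler transformation as a linear map -/
def Ln (u w : Ix p q → R) : (Ix p q → R) →ₗ[R] (Ix p q → R) where
  toFun v := v + Bf d v u • w - (Bf d v w + Qf d w * Bf d v u) • u
  map_add' v v' := by
    rw [Bf_add_left, Bf_add_left]
    module
  map_smul' c v := by
    rw [Bf_smul_left, Bf_smul_left, RingHom.id_apply]
    module

theorem Ln_apply (u w v : Ix p q → R) : Ln d u w v =
    v + Bf d v u • w - (Bf d v w + Qf d w * Bf d v u) • u := rfl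

theorem Ln_Ln (u w w' : Ix p q → R) (h0 : Qf d u = 0) (h1 : Bf d w u = 0) (h2 : Bf d w' u = 0)
    (v : Ix p q → R) : Ln d u w (Ln d u w' v) = Ln d u (w + w') v := by
  have h3 : Bf d u u = 0 := by rw [Bf_self, h0, mul_zero]
  have h4 : Bf d u w = 0 := by rw [Bf_comm, h1]
  have e1 : Bf d (Ln d u w' v) u = Bf d v u := by
    rw [Ln_apply, Bf_sub_left, Bf_add_left, Bf_smul_left, Bf_smul_left, h2, h3]
    ring
  have e2 : Bf d (Ln d u w' v) w = Bf d v w + Bf d v u * Bf d w' w := by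
    rw [Ln_apply, Bf_sub_left, Bf_add_left, Bf_smul_left, Bf_smul_left, h4]
    ring
  rw [Ln_apply d u w, e1, e2, Ln_apply, Ln_apply, Bf_add_right, Qf_add, Bf_comm d w' w]
  module

theorem Ln_zero (u v : Ix p q → R) : Ln d u 0 v = v := by
  have h1 : Bf d v 0 = 0 := by
    rw [← zero_smul R (0 : Ix p q → R), Bf_smul_right, zero_mul]
  have h2 : Qf d (0 : Ix p q → R) = 0 := by
    rw [← zero_smul R (0 : Ix p q → R), Qf_smul]
    ring
  rw [Ln_apply, h1, h2]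
  simp

theorem Qf_Ln (u w : Ix p q → R) (h0 : Qf d u = 0) (h1 : Bf d w u = 0) (v : Ix p q → R) :
    Qf d (Ln d u w v) = Qf d v := by
  rw [Ln_apply, sub_eq_add_neg, ← neg_smul, Qf_add, Qf_add, Qf_smul, Qf_smul, Bf_smul_right,
    Bf_add_left, Bf_smul_right, Bf_smul_left, Bf_smul_right, h0, h1]
  ring

theorem ext_mv {A B : Matrix (Ix p q) (Ix p q) R} (h : ∀ v, A *ᵥ v = B *ᵥ v) : A = B :=
  Matrix.ext_of_mulVec_single fun i => h _

theorem mv_inv (g : GL (Ix p q) R) (v : Ix p q → R) : g.1 *ᵥ ((g⁻¹).1 *ᵥ v) = v := by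
  rw [Matrix.mulVec_mulVec, ← Units.val_mul, mul_inv_cancel, Units.val_one, Matrix.one_mulVec]

theorem mv_inv' (g : GL (Ix p q) R) (v : Ix p q → R) : (g⁻¹).1 *ᵥ (g.1 *ᵥ v) = v := by
  rw [Matrix.mulVec_mulVec, ← Units.val_mul, inv_mul_cancel, Units.val_one, Matrix.one_mulVec]

theorem mv_mul (g h : GL (Ix p q) R) (v : Ix p q → R) : (g * h).1 *ᵥ v = g.1 *ᵥ (h.1 *ᵥ v) := by
  rw [Matrix.mulVec_mulVec]
  rfl

theorem gl_ext {g h : GL (Ix p q) R} (e : ∀ v, g.1 *ᵥ v = h.1 *ᵥ v) : g = h :=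
  Units.ext (ext_mv e)

/-- the Eichler transformation as an invertible matrix -/
theorem exists_Ei (u w : Ix p q → R) (h0 : Qf d u = 0) (h1 : Bf d w u = 0) :
    ∃ x : GL (Ix p q) R, IsEi d x u w := by
  have h2 : Bf d (-w) u = 0 := by rw [Bf_neg_left, h1, neg_zero]
  refine ⟨⟨LinearMap.toMatrix' (Ln d u w), LinearMap.toMatrix' (Ln d u (-w)), ?_, ?_⟩, ?_⟩
  · rw [← LinearMap.toMatrix'_comp, ← LinearMap.toMatrix'_id]
    congr 1
    refine LinearMap.ext fun v => ?_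
    rw [LinearMap.comp_apply, Ln_Ln d u w (-w) h0 h1 h2, add_neg_cancel, Ln_zero]
    rfl
  · rw [← LinearMap.toMatrix'_comp, ← LinearMap.toMatrix'_id]
    congr 1
    refine LinearMap.ext fun v => ?_
    rw [LinearMap.comp_apply, Ln_Ln d u (-w) w h0 h2 h1, neg_add_cancel, Ln_zero]
    rfl
  · intro v
    show LinearMap.toMatrix' (Ln d u w) *ᵥ v = _
    rw [LinearMap.toMatrix'_mulVec]
    rfl

variable {d}

theorem Ei_Ln {x : GL (Ix p q) R} {u w : Ix p q → R} (h : IsEi d x u w) (v : Ix p q → R) :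
    x.1 *ᵥ v = Ln d u w v := h v

theorem Ei_unique {x y : GL (Ix p q) R} {u w : Ix p q → R} (h : IsEi d x u w)
    (h' : IsEi d y u w) : x = y := gl_ext fun v => by rw [h v, h' v]

theorem Ei_mul {x y : GL (Ix p q) R} {u w w' : Ix p q → R} (h : IsEi d x u w)
    (h' : IsEi d y u w') (h0 : Qf d u = 0) (h1 : Bf d w u = 0) (h2 : Bf d w' u = 0) :
    IsEi d (x * y) u (w + w') := fun v => by
  rw [mv_mul, Ei_Ln h', Ei_Ln h, Ln_Ln d u w w' h0 h1 h2]
  rfl

theorem Ei_inv {x : GL (Ix p q) R} {u w : Ix p q → R} (h : IsEi d x u w)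
    (h0 : Qf d u = 0) (h1 : Bf d w u = 0) : IsEi d x⁻¹ u (-w) := by
  have h2 : Bf d (-w) u = 0 := by rw [Bf_neg_left, h1, neg_zero]
  intro v
  have e : v = x.1 *ᵥ (Ln d u (-w) v) := by
    rw [Ei_Ln h, Ln_Ln d u w (-w) h0 h1 h2, add_neg_cancel, Ln_zero]
  conv_lhs => rw [e, mv_inv']
  rfl

theorem Ei_iso {x : GL (Ix p q) R} {u w : Ix p q → R} (h : IsEi d x u w)
    (h0 : Qf d u = 0) (h1 : Bf d w u = 0) : IsIso d x := fun v => by
  rw [Ei_Ln h, Qf_Ln d u w h0 h1]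

theorem iso_Bf {g : GL (Ix p q) R} (h : IsIso d g) (v w : Ix p q → R) :
    Bf d (g.1 *ᵥ v) (g.1 *ᵥ w) = Bf d v w := by
  have h1 := Qf_add d (g.1 *ᵥ v) (g.1 *ᵥ w)
  rw [← Matrix.mulVec_add, h, h, h, Qf_add] at h1
  exact (add_left_cancel h1).symm

theorem Ei_conj {g x : GL (Ix p q) R} {u w : Ix p q → R} (hg : IsIso d g) (h : IsEi d x u w) :
    IsEi d (g * x * g⁻¹) (g.1 *ᵥ u) (g.1 *ᵥ w) := fun v => by
  have e1 : ∀ z, Bf d v (g.1 *ᵥ z) = Bf d ((g⁻¹).1 *ᵥ v) z := by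
    intro z
    rw [← iso_Bf hg ((g⁻¹).1 *ᵥ v) z, mv_inv]
  rw [mv_mul, mv_mul, h, e1, e1, hg, Matrix.mulVec_sub, Matrix.mulVec_add, mv_inv,
    Matrix.mulVec_smul, Matrix.mulVec_smul]

/-- the commutator of `g` and `E(u, w)` when `g u = u` -/
theorem Ei_comm {g x y : GL (Ix p q) R} {u w w' : Ix p q → R} (hg : IsIso d g)
    (h : IsEi d x u w) (hu : g.1 *ᵥ u = u) (hw : g.1 *ᵥ w = w + w') (hy : IsEi d y u w')
    (h0 : Qf d u = 0) (h1 : Bf d w u = 0) (h2 : Bf d w' u = 0) : y = ⁅g, x⁆ := by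
  have h3 := Ei_conj hg h
  rw [hu, hw] at h3
  have h4 : Bf d (w + w') u = 0 := by rw [Bf_add_left, h1, h2, add_zero]
  have h5 : Bf d (-w) u = 0 := by rw [Bf_neg_left, h1, neg_zero]
  have h6 := Ei_mul h3 (Ei_inv h h0 h1) h0 h4 h5
  rw [show w + w' + -w = w' by abel] at h6
  rw [commutatorElement_def]
  exact Ei_unique hy h6

variable (d)

theorem Bf_ve (v : Ix p q → R) (i : Fin p) : Bf d v (ve R i) = v (Sum.inr (Sum.inl i)) := by
  simp only [Bf, ve]
  rw [Finset.sum_eq_single i, Finset.sum_eq_zero]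
  · simp
  · intro k _
    simp
  · intro j _ hj
    simp [Pi.single_apply, hj]
  · intro h
    exact absurd (Finset.mem_univ _) h

theorem Bf_vf (v : Ix p q → R) (i : Fin p) : Bf d v (vf R i) = v (Sum.inl i) := by
  simp only [Bf, vf]
  rw [Finset.sum_eq_single i, Finset.sum_eq_zero]
  · simp
  · intro k _
    simp
  · intro j _ hj
    simp [Pi.single_apply, hj]
  · intro h
    exact absurd (Finset.mem_univ _) h

theorem Qf_ve (i : Fin p) : Qf d (ve R i : Ix p q → R) = 0 := by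
  simp [Qf, ve, Pi.single_apply]

theorem Qf_vf (i : Fin p) : Qf d (vf R i : Ix p q → R) = 0 := by
  simp [Qf, vf, Pi.single_apply]

theorem Bf_u (v : Ix p q → R) (i : Fin p) (u : Ix p q → R) (hu : u = ve R i ∨ u = vf R i)
    (h1 : v (Sum.inl i) = 0) (h2 : v (Sum.inr (Sum.inl i)) = 0) : Bf d v u = 0 := by
  rcases hu with rfl | rfl
  · rw [Bf_ve, h2]
  · rw [Bf_vf, h1]

theorem Qf_u (i : Fin p) (u : Ix p q → R) (hu : u = ve R i ∨ u = vf R i) : Qf d u = 0 := by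
  rcases hu with rfl | rfl
  · rw [Qf_ve]
  · rw [Qf_vf]

theorem ve_inl (i j : Fin p) : (ve R i : Ix p q → R) (Sum.inl j) = if j = i then 1 else 0 := by
  simp [ve, Pi.single_apply]

theorem ve_inr (i : Fin p) (j : Fin p ⊕ Fin q) : (ve R i : Ix p q → R) (Sum.inr j) = 0 := by
  simp [ve, Pi.single_apply]

theorem vf_inl (i j : Fin p) : (vf R i : Ix p q → R) (Sum.inl j) = 0 := by
  simp [vf, Pi.single_apply]

theorem vf_inr (i j : Fin p) : (vf R i : Ix p q → R) (Sum.inr (Sum.inl j)) =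
    if j = i then 1 else 0 := by
  simp [vf, Pi.single_apply]

theorem u_zero {i j : Fin p} (h : j ≠ i) (u : Ix p q → R) (hu : u = ve R i ∨ u = vf R i) :
    u (Sum.inl j) = 0 ∧ u (Sum.inr (Sum.inl j)) = 0 := by
  rcases hu with rfl | rfl
  · rw [ve_inl, ve_inr, if_neg h]
    exact ⟨rfl, rfl⟩
  · rw [vf_inl, vf_inr, if_neg h]
    exact ⟨rfl, rfl⟩

/-- the basic commutator -/
theorem keyA {i l : Fin p} (hil : i ≠ l) (u : Ix p q → R) (hu : u = ve R i ∨ u = vf R i)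
    (w : Ix p q → R) (h1 : w (Sum.inl i) = 0) (h2 : w (Sum.inr (Sum.inl i)) = 0)
    (h3 : w (Sum.inl l) = 0) (h4 : w (Sum.inr (Sum.inl l)) = 0) (y : GL (Ix p q) R)
    (hy : IsEi d y u (w - Qf d w • vf R l)) : y ∈ ⁅EO (p := p) d, EO (p := p) d⁆ := by
  have a1 : Qf d (vf R l : Ix p q → R) = 0 := Qf_vf d l
  have a2 : Bf d w (vf R l) = 0 := by rw [Bf_vf, h3]
  have a3 : Qf d u = 0 := Qf_u d i u hu
  have a4 : Bf d (ve R l : Ix p q → R) u = 0 :=
    Bf_u d _ i u hu (by rw [ve_inl, if_neg hil]) (by rw [ve_inr])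
  have a5 : Bf d w u = 0 := Bf_u d _ i u hu h1 h2
  have a6 : Bf d (vf R l : Ix p q → R) u = 0 :=
    Bf_u d _ i u hu (by rw [vf_inl]) (by rw [vf_inr, if_neg hil])
  have a7 : Bf d (ve R l : Ix p q → R) (vf R l) = 1 := by rw [Bf_vf, ve_inl, if_pos rfl]
  have a8 : Bf d (ve R l : Ix p q → R) w = 0 := by rw [Bf_comm, Bf_ve, h4]
  obtain ⟨g, hg⟩ := exists_Ei d (vf R l) w a1 a2
  obtain ⟨x, hx⟩ := exists_Ei d u (ve R l) a3 a4
  have hg' : g ∈ EO d := Subgroup.subset_closure ⟨_, _, hg, l, Or.inr rfl, h3, h4⟩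
  have hx' : x ∈ EO d := Subgroup.subset_closure ⟨_, _, hx, i, hu,
    by rw [ve_inl, if_neg hil], by rw [ve_inr]⟩
  have e1 : g.1 *ᵥ u = u := by
    rw [hg, Bf_comm d u, a6, Bf_comm d u, a5]
    simp
  have e2 : g.1 *ᵥ (ve R l) = ve R l + (w - Qf d w • vf R l) := by
    rw [hg, a7, a8, one_smul, zero_add, mul_one]
    abel
  have e3 : Bf d (w - Qf d w • vf R l) u = 0 := by
    rw [Bf_sub_left, Bf_smul_left, a5, a6, mul_zero, sub_zero]
  rw [Ei_comm (Ei_iso hg a1 a2) hx e1 e2 hy a3 a4 e3]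
  exact Subgroup.commutator_mem_commutator hg' hx'

/-- additivity -/
theorem key_add {K : Subgroup (GL (Ix p q) R)} {u w w' : Ix p q → R} (h0 : Qf d u = 0)
    (h1 : Bf d w u = 0) (h2 : Bf d w' u = 0) (h3 : ∀ y, IsEi d y u w → y ∈ K)
    (h4 : ∀ y, IsEi d y u w' → y ∈ K) (y : GL (Ix p q) R) (hy : IsEi d y u (w + w')) : y ∈ K := by
  obtain ⟨x, hx⟩ := exists_Ei d u w h0 h1
  obtain ⟨z, hz⟩ := exists_Ei d u w' h0 h2
  rw [Ei_unique hy (Ei_mul hx hz h0 h1 h2)]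
  exact K.mul_mem (h3 x hx) (h4 z hz)

/-- the case of a multiple of a basis vector -/
theorem keyB {i j l : Fin p} (hil : i ≠ l) (hij : i ≠ j) (hlj : l ≠ j) (u : Ix p q → R)
    (hu : u = ve R i ∨ u = vf R i) (b : Ix p q → R) (hb : b = ve R l ∨ b = vf R l) (c : R)
    (y : GL (Ix p q) R) (hy : IsEi d y u (c • b)) : y ∈ ⁅EO (p := p) d, EO (p := p) d⁆ := by
  have h1 := u_zero hil b hb
  have h2 := u_zero hlj.symm b hb
  have h3 : Qf d (c • b) = 0 := by rw [Qf_smul, Qf_u d l b hb, mul_zero]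
  refine keyA d hij u hu (c • b) ?_ ?_ ?_ ?_ y ?_
  · rw [Pi.smul_apply, h1.1, smul_zero]
  · rw [Pi.smul_apply, h1.2, smul_zero]
  · rw [Pi.smul_apply, h2.1, smul_zero]
  · rw [Pi.smul_apply, h2.2, smul_zero]
  · rw [h3, zero_smul, sub_zero]
    exact hy

/-- every generator is in the commutator subgroup -/
theorem key_gen {i j l : Fin p} (hil : i ≠ l) (hij : i ≠ j) (hlj : l ≠ j) (u : Ix p q → R)
    (hu : u = ve R i ∨ u = vf R i) (w : Ix p q → R) (h1 : w (Sum.inl i) = 0)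
    (h2 : w (Sum.inr (Sum.inl i)) = 0) (y : GL (Ix p q) R) (hy : IsEi d y u w) :
    y ∈ ⁅EO (p := p) d, EO (p := p) d⁆ := by
  obtain ⟨w', hw'⟩ : ∃ w' : Ix p q → R, w' = w - w (Sum.inl l) • ve R l -
    w (Sum.inr (Sum.inl l)) • vf R l := ⟨_, rfl⟩
  have b1 : w' (Sum.inl i) = 0 := by
    rw [hw']
    simp [ve_inl, vf_inl, hil, h1]
  have b2 : w' (Sum.inr (Sum.inl i)) = 0 := by
    rw [hw']
    simp [ve_inr, vf_inr, hil, h2]
  have b3 : w' (Sum.inl l) = 0 := by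
    rw [hw']
    simp [ve_inl, vf_inl]
  have b4 : w' (Sum.inr (Sum.inl l)) = 0 := by
    rw [hw']
    simp [ve_inr, vf_inr]
  have a3 : Qf d u = 0 := Qf_u d i u hu
  have a4 : Bf d (ve R l : Ix p q → R) u = 0 :=
    Bf_u d _ i u hu (by rw [ve_inl, if_neg hil]) (by rw [ve_inr])
  have a5 : Bf d w' u = 0 := Bf_u d _ i u hu b1 b2
  have a6 : Bf d (vf R l : Ix p q → R) u = 0 :=
    Bf_u d _ i u hu (by rw [vf_inl]) (by rw [vf_inr, if_neg hil])
  have e1 : w = (w' - Qf d w' • vf R l) + (w (Sum.inl l) • ve R l +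
      (w (Sum.inr (Sum.inl l)) + Qf d w') • vf R l) := by
    obtain ⟨t, ht⟩ : ∃ t, t = Qf d w' := ⟨_, rfl⟩
    rw [← ht, hw']
    module
  rw [e1] at hy
  refine key_add d a3 ?_ ?_ (keyA d hil u hu w' b1 b2 b3 b4) ?_ y hy
  · rw [Bf_sub_left, Bf_smul_left, a5, a6, mul_zero, sub_zero]
  · rw [Bf_add_left, Bf_smul_left, Bf_smul_left, a4, a6, mul_zero, mul_zero, add_zero]
  · refine key_add d a3 ?_ ?_ (keyB d hil hij hlj u hu _ (Or.inl rfl) _)
      (keyB d hil hij hlj u hu _ (Or.inr rfl) _)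
    · rw [Bf_smul_left, a4, mul_zero]
    · rw [Bf_smul_left, a6, mul_zero]

end

/-- **job PERF** -/
theorem tPerf : Q4.ZO.SPerf := by
  intro R _ m q d
  have hk : ∀ i j : Fin (m + 3), ∃ k, i ≠ k ∧ j ≠ k := by
    intro i j
    have h1 : ({i, j} : Finset (Fin (m + 3))).card < (Finset.univ : Finset (Fin (m + 3))).card := by
      rw [Finset.card_univ, Fintype.card_fin]
      exact lt_of_le_of_lt Finset.card_le_two (by omega)
    obtain ⟨k, -, hk⟩ := Finset.exists_mem_notMem_of_card_lt_card h1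
    rw [Finset.mem_insert, Finset.mem_singleton, not_or] at hk
    exact ⟨k, Ne.symm hk.1, Ne.symm hk.2⟩
  have hle : EO (p := m + 3) d ≤ ⁅EO (p := m + 3) d, EO (p := m + 3) d⁆ := by
    conv_lhs => unfold EO
    rw [Subgroup.closure_le]
    rintro x ⟨u, w, hx, i, hu, h1, h2⟩
    obtain ⟨l, hil, -⟩ := hk i i
    obtain ⟨j, hij, hlj⟩ := hk i l
    exact key_gen d hil hij hlj u hu w h1 h2 x hx
  rw [eq_top_iff]
  intro x _
  have h2 := hle x.2
  rw [← Subgroup.map_subtype_commutator] at h2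
  obtain ⟨y, hy, hyx⟩ := h2
  have h3 : y = x := Subtype.ext hyx
  rw [← h3]
  exact hy

end Q210.ZO
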